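import Mathlib
import Pool.Agent.TH5.BD.Switch

set_option autoImplicit false
set_option linter.unusedSectionVars false

/-!
# The switching lemma with weights

The switching lemma of `Pool.Agent.TH5.BD.Switch`, keeping track of an arbitrary weight on the
roots that is invariant under the simple reflection.
-/

namespace Pool.Agent.L5helper72.BW

open CoxeterSystem Pool.Agent.Helper703.Cox Pool.Agent.TH5.BD

variable {B : Type*} {M : CoxeterMatrix B} [Fintype B] [DecidableEq B]
variable {W : Type*} [Group W] {cs : CoxeterSystem M W}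

/-- **Switching lemma**, with weights. -/
theorem switchW {x y : W} {i : B} (hx : geo cs x (ee i) ≤ 0) (hy : 0 ≤ geo cs y⁻¹ (ee i))
    {F : Finset (B → ℝ)} (hF : ∀ β ∈ F, β ∈ Nn cs x y) (hA : Anti cs F) :
    ∃ F' : Finset (B → ℝ), (∀ β ∈ F', β ∈ Nn cs x (cs.simple i * y)) ∧ Anti cs F' ∧
      ∀ wt : (B → ℝ) → ℕ, (∀ β, wt (sg M i β) = wt β) →
        ∑ β ∈ F', wt β = ∑ β ∈ F, wt β + wt (ee i) := by
  classical
  have hYs : ∀ v, geo cs (cs.simple i * y)⁻¹ v = geo cs y⁻¹ (sg M i v) := by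
    intro v
    rw [mul_inv_rev, cs.inv_simple, map_mul, Module.End.mul_apply, geo_simple]
  have hya : ¬ geo cs y⁻¹ (ee i) ≤ 0 := ((isRoot_ee i).geo _).not_nonpos hy
  have hneF : ∀ β ∈ F, β ≠ ee i := by
    rintro β hβ rfl
    exact hya (hF _ hβ).2.2.2
  -- the switched roots
  have hroot : ∀ β ∈ F, IsRoot cs (sigma cs F i β) ∧ 0 ≤ sigma cs F i β := by
    intro β hβ
    have hb := hF β hβ
    unfold sigma
    split_ifs
    · exact ⟨hb.1.sg i, hb.1.simple_pos hb.2.1 (hneF β hβ)⟩
    · exact ⟨hb.1, hb.2.1⟩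
  have hmem : ∀ β ∈ F, sigma cs F i β ∈ Nn cs x (cs.simple i * y) := by
    intro β hβ
    refine ⟨(hroot β hβ).1, (hroot β hβ).2, ?_⟩
    rw [hYs]
    obtain ⟨hr, h0, hX, hY⟩ := hF β hβ
    unfold sigma
    split_ifs with hs
    · rw [sg_sg]
      refine ⟨?_, hY⟩
      rcases hs with hs | hs
      · rw [sg_apply, map_sub, map_smul]
        intro j
        have h4 := hX j
        have h5 := hx j
        have h6 := hs.1
        simp only [Pi.sub_apply, Pi.smul_apply, smul_eq_mul, Pi.zero_apply] at h4 h5 ⊢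
        nlinarith
      · obtain ⟨_, m, hm, _, hmd, _⟩ := hs
        exact hmd.sg' x (hF m hm).2.2.1
    · refine ⟨hX, ?_⟩
      rcases lt_trichotomy (coroot M i β) 0 with hb | hb | hb
      · have hU : ∃ p ∈ F, 0 < coroot M i p ∧ Dom cs p (sg M i β) := by
          by_contra hc
          exact hs (Or.inl ⟨hb, hc⟩)
        obtain ⟨p, hp, _, hpd⟩ := hU
        exact hpd _ (hF p hp).2.2.2
      · rwa [sg_of_coroot_eq_zero hb]
      · rw [sg_apply, map_sub, map_smul]
        intro j
        have h4 := hY j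
        have h5 := hy j
        simp only [Pi.sub_apply, Pi.smul_apply, smul_eq_mul, Pi.zero_apply] at h4 h5 ⊢
        nlinarith
  have hsne : ∀ β ∈ F, sigma cs F i β ≠ ee i := by
    intro β hβ h
    unfold sigma at h
    split_ifs at h
    · have h1 : β = - ee i := by
        rw [← sg_sg M i β, h, sg_ee_self]
      have h2 := (hF β hβ).2.1
      rw [h1] at h2
      exact ((isRoot_ee (cs := cs) i)).not_nonpos (ee_nonneg i) (neg_nonneg.1 h2)
    · exact hneF β hβ h
  have hinj : Set.InjOn (sigma cs F i) F := by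
    intro β hβ γ hγ h
    by_contra hne
    apply sigma_anti hA hβ hγ hne
    rw [h]
    exact Dom.refl _
  have hnm : ee i ∉ F.image (sigma cs F i) := by
    intro h
    obtain ⟨β, hβ, h1⟩ := Finset.mem_image.1 h
    exact hsne β hβ h1
  refine ⟨insert (ee i) (F.image (sigma cs F i)), ?_, ?_, ?_⟩
  · intro β hβ
    rcases Finset.mem_insert.1 hβ with rfl | hβ
    · refine ⟨isRoot_ee i, ee_nonneg i, hx, ?_⟩
      rw [hYs, sg_ee_self, map_neg]
      exact neg_nonpos.2 hy
    · obtain ⟨γ, hγ, rfl⟩ := Finset.mem_image.1 hβ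
      exact hmem γ hγ
  · -- antichain
    have h1 : ∀ β ∈ F, ¬ Dom cs (ee i) (sigma cs F i β) := by
      intro β hβ hd
      have h2 := hd (cs.simple i)
      rw [geo_simple, sg_ee_self] at h2
      have h3 := h2 (neg_nonpos.2 (ee_nonneg i))
      exact ((hroot β hβ).1.sg i).not_nonpos ((hroot β hβ).1.simple_pos (hroot β hβ).2
        (hsne β hβ)) h3
    have h2 : ∀ β ∈ F, ¬ Dom cs (sigma cs F i β) (ee i) := by
      intro β hβ hd
      unfold sigma at hd
      split_ifs at hd
      · have h3 := hd.sg' x (hF β hβ).2.2.1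
        rw [sg_ee_self, map_neg] at h3
        exact ((isRoot_ee i).geo x).not_nonpos (neg_nonpos.1 h3) hx
      · exact hya (hd _ (hF β hβ).2.2.2)
    intro β hβ γ hγ hne
    rcases Finset.mem_insert.1 hβ with rfl | hβ
    · rcases Finset.mem_insert.1 hγ with rfl | hγ
      · exact absurd rfl hne
      · obtain ⟨γ', hγ', rfl⟩ := Finset.mem_image.1 hγ
        exact h1 γ' hγ'
    · obtain ⟨β', hβ', rfl⟩ := Finset.mem_image.1 hβ
      rcases Finset.mem_insert.1 hγ with rfl | hγ
      · exact h2 β' hβ'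
      · obtain ⟨γ', hγ', rfl⟩ := Finset.mem_image.1 hγ
        apply sigma_anti hA hβ' hγ'
        rintro rfl
        exact hne rfl
  · intro wt hwt
    rw [Finset.sum_insert hnm, Finset.sum_image hinj, add_comm]
    congr 1
    refine Finset.sum_congr rfl fun β _ => ?_
    unfold sigma
    split_ifs
    · exact hwt β
    · rfl

/-- shifting a letter does not change the largest weight of an antichain -/
theorem shiftW {x y : W} {i : B} (hy : 0 ≤ geo cs y⁻¹ (ee i))
    {F : Finset (B → ℝ)} (hF : ∀ β ∈ F, β ∈ Nn cs (x * cs.simple i) y) (hA : Anti cs F) :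
    ∃ F' : Finset (B → ℝ), (∀ β ∈ F', β ∈ Nn cs x (cs.simple i * y)) ∧ Anti cs F' ∧
      ∀ wt : (B → ℝ) → ℕ, (∀ β, wt (sg M i β) = wt β) →
        ∑ β ∈ F', wt β = ∑ β ∈ F, wt β := by
  classical
  have hinj : Function.Injective (sg M i) := fun u v h => by
    rw [← sg_sg M i u, h, sg_sg]
  have hya : ¬ geo cs y⁻¹ (ee i) ≤ 0 := ((isRoot_ee i).geo _).not_nonpos hy
  refine ⟨F.image (sg M i), ?_, ?_, fun wt hwt => by
    rw [Finset.sum_image hinj.injOn]
    exact Finset.sum_congr rfl fun β _ => hwt β⟩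
  · intro β hβ
    obtain ⟨γ, hγ, rfl⟩ := Finset.mem_image.1 hβ
    obtain ⟨h1, h2, h3, h4⟩ := hF γ hγ
    refine ⟨h1.sg i, h1.simple_pos h2 ?_, ?_, ?_⟩
    · rintro rfl; exact hya h4
    · rw [map_mul, Module.End.mul_apply, geo_simple] at h3
      exact h3
    · rw [mul_inv_rev, cs.inv_simple, map_mul, Module.End.mul_apply, geo_simple, sg_sg]
      exact h4
  · intro β hβ γ hγ hne
    obtain ⟨β', hβ', rfl⟩ := Finset.mem_image.1 hβ
    obtain ⟨γ', hγ', rfl⟩ := Finset.mem_image.1 hγ
    intro hd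
    have := hd.sg i
    rw [sg_sg, sg_sg] at this
    exact hA β' hβ' γ' hγ' (fun h => hne (by rw [h])) this

end Pool.Agent.L5helper72.BW
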