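import Mathlib
import Pool.Agent.TH5.BD.Hecke
import Pool.Agent.L5helper72.BW.Switch

set_option autoImplicit false
set_option linter.unusedSectionVars false

/-!
# Degrees of the structure constants and pairwise crossing families of reflections
-/

namespace Pool.Agent.L5helper72.BW

open CoxeterSystem Pool.Agent.Helper703.Cox Pool.Agent.TH5.BD LaurentPolynomial Module

variable {B : Type*} {M : CoxeterMatrix B}
variable {W : Type*} [Group W] {cs : CoxeterSystem M W}

/-- a weight function takes the same value on conjugate simple reflections -/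
lemma weight_conj {L : W → ℤ} (hL : IsWeight cs L) {i j : B} {u : W}
    (h : cs.simple i * u = u * cs.simple j) : L (cs.simple i) = L (cs.simple j) := by
  have hlen : cs.length (cs.simple i * u) = cs.length (u * cs.simple j) := by rw [h]
  rcases cs.length_simple_mul u i with h1 | h1
  · have e1 := hL.add (cs.simple i) u (by rw [h1, cs.length_simple, add_comm])
    have e2 := hL.add u (cs.simple j) (by rw [← hlen, h1, cs.length_simple])
    rw [h] at e1
    linarith
  · have e1 := hL.add (cs.simple i) (cs.simple i * u) (by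
      rw [cs.simple_mul_simple_cancel_left, cs.length_simple]; omega)
    have e2 := hL.add (u * cs.simple j) (cs.simple j) (by
      rw [cs.simple_mul_simple_cancel_right, cs.length_simple, ← hlen]; omega)
    rw [cs.simple_mul_simple_cancel_left] at e1
    rw [cs.simple_mul_simple_cancel_right] at e2
    rw [h] at e1
    linarith

open Classical in
/-- the weight of a reflection: the value of `L` on the simple reflections conjugate to it -/
noncomputable def reflWeight (cs : CoxeterSystem M W) (L : W → ℤ) (t : W) : ℤ :=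
  if h : ∃ (w : W) (i : B), t = w * cs.simple i * w⁻¹ then L (cs.simple h.choose_spec.choose) else 0

lemma reflWeight_conj {L : W → ℤ} (hL : IsWeight cs L) (w : W) (i : B) :
    reflWeight cs L (w * cs.simple i * w⁻¹) = L (cs.simple i) := by
  have h : ∃ (w' : W) (i' : B), w * cs.simple i * w⁻¹ = w' * cs.simple i' * w'⁻¹ := ⟨w, i, rfl⟩
  unfold reflWeight
  rw [dif_pos h]
  have h1 := h.choose_spec.choose_spec
  set w' := h.choose
  set i' := h.choose_spec.choose
  apply weight_conj hL (u := w'⁻¹ * w)
  calc cs.simple i' * (w'⁻¹ * w) = w'⁻¹ * (w' * cs.simple i' * w'⁻¹) * w := by group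
    _ = w'⁻¹ * (w * cs.simple i * w⁻¹) * w := by rw [h1]
    _ = w'⁻¹ * w * cs.simple i := by group

variable [Fintype B] [DecidableEq B]

/-- the reflection `w s_i w⁻¹` acts by the root `w α_i` -/
lemma geo_refl (w : W) (i : B) (v : B → ℝ) :
    geo cs (w * cs.simple i * w⁻¹) v = v - bf M (geo cs w (ee i)) v • geo cs w (ee i) := by
  have h1 : bf M (geo cs w (ee i)) v = bf M (ee i) (geo cs w⁻¹ v) := by
    conv_lhs => rw [← geo_apply_inv cs w v]
    rw [bf_geo]
  rw [map_mul, map_mul, Module.End.mul_apply, Module.End.mul_apply, geo_simple, sg_apply, map_sub,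
    geo_apply_inv, map_smul, h1, bf_ee]

lemma refl_eq_of_root_eq {w w' : W} {i j : B} (h : geo cs w (ee i) = geo cs w' (ee j)) :
    w * cs.simple i * w⁻¹ = w' * cs.simple j * w'⁻¹ := by
  apply geo_injective cs
  apply LinearMap.ext
  intro v
  rw [geo_refl, geo_refl, h]

open Classical in
/-- the reflection of a root -/
noncomputable def refl (cs : CoxeterSystem M W) (β : B → ℝ) : W :=
  if h : IsRoot cs β then h.choose * cs.simple h.choose_spec.choose * h.choose⁻¹ else 1

lemma refl_geo (w : W) (i : B) : refl cs (geo cs w (ee i)) = w * cs.simple i * w⁻¹ := by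
  have h : IsRoot cs (geo cs w (ee i)) := ⟨w, i, rfl⟩
  unfold refl
  rw [dif_pos h]
  exact (refl_eq_of_root_eq h.choose_spec.choose_spec).symm

lemma refl_not {β : B → ℝ} (h : ¬ IsRoot cs β) : refl cs β = 1 := by
  unfold refl
  rw [dif_neg h]

lemma geo_refl_apply {β : B → ℝ} (h : IsRoot cs β) (v : B → ℝ) :
    geo cs (refl cs β) v = v - bf M β v • β := by
  obtain ⟨w, i, rfl⟩ := h
  rw [refl_geo, geo_refl]

lemma refl_isReflection {β : B → ℝ} (h : IsRoot cs β) : cs.IsReflection (refl cs β) := by
  obtain ⟨w, i, rfl⟩ := h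
  rw [refl_geo]
  exact ⟨w, i, rfl⟩

lemma refl_mul_self {β : B → ℝ} (h : IsRoot cs β) : refl cs β * refl cs β = 1 :=
  (refl_isReflection h).mul_self

lemma refl_inj {β γ : B → ℝ} (hβ : IsRoot cs β) (hγ : IsRoot cs γ) (h0 : 0 ≤ β) (h1 : 0 ≤ γ)
    (h : refl cs β = refl cs γ) : β = γ := by
  have e : geo cs (refl cs β) β = geo cs (refl cs γ) β := by rw [h]
  rw [geo_refl_apply hβ, geo_refl_apply hγ, hβ.bf_self] at e
  have e2 : (2 : ℝ) • β = bf M γ β • γ := sub_right_injective e
  have e3 : (4 : ℝ) = bf M γ β * bf M γ β := by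
    have := congrArg (bf M β) e2
    rw [map_smul, map_smul, hβ.bf_self, bf_symm β γ] at this
    simp only [smul_eq_mul] at this
    linarith
  have e4 : bf M γ β = 2 ∨ bf M γ β = -2 := by
    have : (bf M γ β - 2) * (bf M γ β + 2) = 0 := by ring_nf; linarith
    rcases mul_eq_zero.1 this with h | h
    · left; linarith
    · right; linarith
  rcases e4 with e4 | e4
  · rw [e4] at e2
    exact smul_right_injective _ two_ne_zero e2
  · exfalso
    rw [e4] at e2
    have e5 : β = -γ := by
      apply smul_right_injective _ (two_ne_zero : (2 : ℝ) ≠ 0)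
      show (2 : ℝ) • β = (2 : ℝ) • (-γ)
      rw [e2]; module
    exact hβ.not_nonpos h0 (by rw [e5]; exact neg_nonpos.2 h1)

/-- if `x` makes the positive root `β` negative then `ℓ(x t) < ℓ(x)` -/
lemma length_mul_refl_lt {β : B → ℝ} (hβ : IsRoot cs β) (h0 : 0 ≤ β) {x : W}
    (hx : geo cs x β ≤ 0) : cs.length (x * refl cs β) < cs.length x := by
  have key : ∀ ω : List B, geo cs (cs.wordProd ω) β ≤ 0 →
      ∃ ω' : List B, ω'.length < ω.length ∧ cs.wordProd ω' = cs.wordProd ω * refl cs β := by
    intro ω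
    induction ω with
    | nil =>
      intro h
      exfalso
      rw [cs.wordProd_nil, map_one, Module.End.one_apply] at h
      exact hβ.not_nonpos h0 h
    | cons i ω ih =>
      intro h
      rw [cs.wordProd_cons, map_mul, Module.End.mul_apply, geo_simple] at h
      rcases (hβ.geo (cs.wordProd ω)).sign with h1 | h1
      · have h2 : geo cs (cs.wordProd ω) β = ee i := by
          by_contra hne
          have := (hβ.geo (cs.wordProd ω)).simple_pos h1 hne
          exact ((hβ.geo (cs.wordProd ω)).sg i).not_nonpos this h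
        refine ⟨ω, by simp, ?_⟩
        have h3 : β = geo cs (cs.wordProd ω)⁻¹ (ee i) := by
          rw [← h2, ← Module.End.mul_apply, ← map_mul, inv_mul_cancel, map_one,
            Module.End.one_apply]
        rw [h3, refl_geo, cs.wordProd_cons, inv_inv]
        have h4 := cs.simple_mul_simple_self i
        calc cs.wordProd ω = cs.simple i * cs.simple i * cs.wordProd ω := by rw [h4, one_mul]
          _ = _ := by group
      · obtain ⟨ω', h2, h3⟩ := ih h1
        refine ⟨i :: ω', by simpa using h2, ?_⟩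
        rw [cs.wordProd_cons, h3, cs.wordProd_cons, mul_assoc]
  obtain ⟨ω, hω, rfl⟩ := cs.exists_isReduced x
  obtain ⟨ω', h1, h2⟩ := key ω hx
  rw [← h2, hω]
  exact lt_of_le_of_lt (cs.length_wordProd_le ω') h1

variable {L : W → ℤ}

/-- the weight of a root -/
noncomputable def rootWt (cs : CoxeterSystem M W) (L : W → ℤ) (β : B → ℝ) : ℕ :=
  (reflWeight cs L (refl cs β)).toNat

open Classical in
lemma rootWt_sg (hL : IsWeight cs L) (i : B) (β : B → ℝ) :
    rootWt cs L (sg M i β) = rootWt cs L β := by
  unfold rootWt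
  by_cases h : IsRoot cs β
  · obtain ⟨w, j, rfl⟩ := h
    have e : sg M i (geo cs w (ee j)) = geo cs (cs.simple i * w) (ee j) := by
      rw [map_mul, Module.End.mul_apply, geo_simple]
    rw [e, refl_geo, refl_geo, reflWeight_conj hL, reflWeight_conj hL]
  · have h' : ¬ IsRoot cs (sg M i β) := by
      intro h'
      apply h
      have := h'.sg i
      rwa [sg_sg] at this
    rw [refl_not h, refl_not h']

lemma rootWt_ee (hL : IsWeight cs L) (i : B) : rootWt cs L (ee i) = (L (cs.simple i)).toNat := by
  unfold rootWt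
  have e : (ee i : B → ℝ) = geo cs (1 : W) (ee i) := by rw [map_one, Module.End.one_apply]
  rw [e, refl_geo, reflWeight_conj hL]

/-- **Degree bound by antichains, with weights.** -/
theorem dgW {L : W → ℕ} {f : W → W → W → LaurentPolynomial ℤ} (h : IsSC cs L f)
    {wt : (B → ℝ) → ℕ} (hwt : ∀ i β, wt (sg M i β) = wt β)
    (hwt' : ∀ i, wt (ee i) = L (cs.simple i)) :
    ∀ (n : ℕ) (x y : W) (k : ℕ), cs.length y = n →
      (∀ F : Finset (B → ℝ), (∀ β ∈ F, β ∈ Nn cs x y) → Anti cs F → ∑ β ∈ F, wt β ≤ k) →
      ∀ z, Dg (f x y z) (k : ℤ) := by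
  classical
  intro n
  induction n with
  | zero =>
    intro x y k hy _ z
    have hy1 : y = 1 := cs.length_eq_zero_iff.1 hy
    subst hy1
    by_cases hz : x = z
    · rw [(h.right_one _ x rfl z).1 hz]
      exact dg_one (by positivity)
    · rw [(h.right_one _ x rfl z).2 hz]
      exact dg_zero _
  | succ n ih =>
    intro x y k hy hF z
    have hy1 : y ≠ 1 := by
      rintro rfl
      rw [cs.length_one] at hy
      omega
    obtain ⟨i, hi⟩ := cs.exists_leftDescent_of_ne_one hy1
    have hi' : cs.length (cs.simple i * y) + 1 = cs.length y := cs.isLeftDescent_iff.mp hi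
    obtain ⟨y', hy'⟩ : ∃ y', y' = cs.simple i * y := ⟨_, rfl⟩
    rw [← hy'] at hi'
    have hyy : y = cs.simple i * y' := by rw [hy', cs.simple_mul_simple_cancel_left]
    have h6 : cs.length y' < cs.length (cs.simple i * y') := by rw [← hyy]; omega
    have hpos : 0 ≤ geo cs y'⁻¹ (ee i) := by
      apply geo_nonneg
      have e : y'⁻¹ * cs.simple i = (cs.simple i * y')⁻¹ := by rw [mul_inv_rev, cs.inv_simple]
      rw [e, cs.length_inv, cs.length_inv]
      exact h6
    rw [hyy] at hF ⊢
    -- bound for the pair `(x s, y')`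
    have hb : ∀ F : Finset (B → ℝ), (∀ β ∈ F, β ∈ Nn cs (x * cs.simple i) y') → Anti cs F →
        ∑ β ∈ F, wt β ≤ k := by
      intro F hF1 hF2
      obtain ⟨F', h1, h2, h3⟩ := shiftW hpos hF1 hF2
      rw [← h3 wt (hwt i)]
      exact hF F' h1 h2
    rcases cs.length_mul_simple x i with hx | hx
    · rw [h.R1 h6 _ x rfl (by omega)]
      exact ih _ _ k (by omega) hb z
    · have hx2 : x = x * cs.simple i * cs.simple i := by rw [cs.simple_mul_simple_cancel_right]
      have hxneg : geo cs x (ee i) ≤ 0 := geo_nonpos cs x i (by omega)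
      -- bound for the pair `(x, y')`
      have hk : L (cs.simple i) ≤ k := by
        obtain ⟨F', h1, h2, h3⟩ := switchW (F := ∅) hxneg hpos (by simp) (by
          intro β hβ; simp at hβ)
        have := hF F' h1 h2
        rw [h3 wt (hwt i), Finset.sum_empty, hwt' i] at this
        omega
      obtain ⟨k', rfl⟩ : ∃ k', k = k' + L (cs.simple i) := ⟨k - L (cs.simple i), by omega⟩
      have hb' : ∀ F : Finset (B → ℝ), (∀ β ∈ F, β ∈ Nn cs x y') → Anti cs F →
          ∑ β ∈ F, wt β ≤ k' := by
        intro F hF1 hF2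
        obtain ⟨F', h1, h2, h3⟩ := switchW hxneg hpos hF1 hF2
        have := hF F' h1 h2
        rw [h3 wt (hwt i), hwt' i] at this
        omega
      have e := h.R2 h6 _ (x * cs.simple i) rfl (by
        rw [cs.simple_mul_simple_cancel_right]; omega) z
      rw [← hx2] at e
      rw [e]
      apply Dg.add
      · exact ih _ _ _ (by omega) hb z
      · have h7 := (ih x y' k' (by omega) hb' z).xi_mul (L (cs.simple i))
        apply h7.mono
        push_cast
        exact le_rfl

/-- two different positive roots of an antichain made negative by one element generate a finite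
dihedral group -/
lemma finOrder_of_anti {β γ : B → ℝ} {x : W} (hβ : β ∈ Inv cs x) (hγ : γ ∈ Inv cs x)
    (h1 : ¬ Dom cs β γ) (h2 : ¬ Dom cs γ β) : IsOfFinOrder (refl cs β * refl cs γ) := by
  have hlt : bf M β γ < 2 := by
    by_contra hc
    rcases dom_of_two_le hβ.1 hγ.1 (not_lt.1 hc) with h | h
    · exact h1 h
    · exact h2 h
  obtain ⟨k, hk, hk1⟩ := rot_finite hβ.1 hγ.1 (neg_two_lt hβ hγ) hlt
    (c := refl cs β * refl cs γ) (by
      intro v
      rw [map_mul, Module.End.mul_apply, geo_refl_apply hγ.1, geo_refl_apply hβ.1])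
  exact isOfFinOrder_iff_pow_eq_one.2 ⟨k, hk, hk1⟩

/-- **Main bound.**  There is `C` depending only on `(W, S)` such that for every weight function
every structure constant `f_{x,y,z}` has degree at most the total weight of a family of at most `C`
reflections that are right inversions of `x` and left inversions of `y` and generate pairwise finite
dihedral groups. -/
theorem exists_family (cs : CoxeterSystem M W) : ∃ C : ℕ, ∀ (L : W → ℤ), IsWeight cs L →
    ∀ f : W → W → W → LaurentPolynomial ℤ, IsSC cs (fun w => (L w).toNat) f →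
    ∀ x y : W, ∃ F : Finset W, F.card ≤ C ∧
      (∀ t ∈ F, cs.IsReflection t ∧ cs.length (x * t) < cs.length x ∧
        cs.length (t * y) < cs.length y) ∧
      (∀ t ∈ F, ∀ t' ∈ F, IsOfFinOrder (t * t')) ∧
      ∀ z, Dg (f x y z) (∑ t ∈ F, reflWeight cs L t) := by
  classical
  obtain ⟨C, hC⟩ := anti_bound cs
  refine ⟨C, fun L hL f hf x y => ?_⟩
  set wt := rootWt cs L with hwt
  -- all roots that may occur
  set I : Finset (B → ℝ) := (inv_finite (cs := cs) x).toFinset with hI
  set P : Finset (Finset (B → ℝ)) := I.powerset.filter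
    (fun F => (∀ β ∈ F, β ∈ Nn cs x y) ∧ Anti cs F) with hP
  have hNI : ∀ β, β ∈ Nn cs x y → β ∈ Inv cs x := fun β hβ => ⟨hβ.1, hβ.2.1, hβ.2.2.1⟩
  have hne : P.Nonempty := ⟨∅, by
    rw [hP, Finset.mem_filter]
    refine ⟨Finset.empty_mem_powerset _, by simp, ?_⟩
    intro β hβ
    simp at hβ⟩
  obtain ⟨F, hF, hmax⟩ := P.exists_max_image (fun F => ∑ β ∈ F, wt β) hne
  rw [hP, Finset.mem_filter] at hF
  obtain ⟨_, hF1, hF2⟩ := hF
  have hinj : Set.InjOn (refl cs) (F : Set (B → ℝ)) := fun β hβ γ hγ h =>
    refl_inj (hF1 β hβ).1 (hF1 γ hγ).1 (hF1 β hβ).2.1 (hF1 γ hγ).2.1 h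
  have hd := dgW hf (wt := wt) (rootWt_sg hL) (rootWt_ee hL) _ x y (∑ β ∈ F, wt β) rfl (by
    intro F' h1 h2
    apply hmax F'
    rw [hP, Finset.mem_filter]
    refine ⟨?_, h1, h2⟩
    rw [Finset.mem_powerset]
    intro β hβ
    rw [hI, Set.Finite.mem_toFinset]
    exact hNI β (h1 β hβ))
  refine ⟨F.image (refl cs), ?_, ?_, ?_, ?_⟩
  · rw [Finset.card_image_of_injOn hinj]
    exact hC x F (fun β hβ => hNI β (hF1 β hβ)) hF2
  · intro t ht
    obtain ⟨β, hβ, rfl⟩ := Finset.mem_image.1 ht
    obtain ⟨h1, h2, h3, h4⟩ := hF1 β hβ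
    refine ⟨refl_isReflection h1, length_mul_refl_lt h1 h2 h3, ?_⟩
    have := length_mul_refl_lt h1 h2 h4
    rw [← cs.length_inv, mul_inv_rev, inv_inv, cs.length_inv] at this
    rwa [(refl_isReflection h1).inv] at this
  · intro t ht t' ht'
    obtain ⟨β, hβ, rfl⟩ := Finset.mem_image.1 ht
    obtain ⟨γ, hγ, rfl⟩ := Finset.mem_image.1 ht'
    by_cases hne : β = γ
    · subst hne
      rw [refl_mul_self (hF1 β hβ).1]
      exact IsOfFinOrder.one
    · exact finOrder_of_anti (hNI β (hF1 β hβ)) (hNI γ (hF1 γ hγ)) (hF2 β hβ γ hγ hne)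
        (hF2 γ hγ β hβ (Ne.symm hne))
  · intro z
    have e : ∑ t ∈ F.image (refl cs), reflWeight cs L t = ((∑ β ∈ F, wt β : ℕ) : ℤ) := by
      rw [Finset.sum_image hinj]
      push_cast
      refine Finset.sum_congr rfl fun β hβ => ?_
      rw [hwt]
      unfold rootWt
      rw [Int.toNat_of_nonneg]
      obtain ⟨w, i, h⟩ := (hF1 β hβ).1
      rw [h, refl_geo, reflWeight_conj hL]
      exact (hL.pos i).le
    rw [e]
    exact hd z

end Pool.Agent.L5helper72.BW
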